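import Mathlib
import Pool.Agent.P.MP_e0c710_co.Main

set_option autoImplicit false

namespace Pool.Agent.Results.MP_e0c710_co.PathOrClaw

/-- In every 3-edge-colouring of a finite graph of chromatic number at least 6 there is a
monochromatic path with three edges or a monochromatic star with three edges. -/
theorem result :
    ∀ (V : Type) [Fintype V] (G : SimpleGraph V),
      6 ≤ G.chromaticNumber →
      ∀ col : Sym2 V → Fin 3,
        (∃ a b c d : V,
          G.Adj a b ∧ G.Adj b c ∧ G.Adj c d ∧
          a ≠ c ∧ b ≠ d ∧ a ≠ d ∧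
          col s(a, b) = col s(b, c) ∧ col s(b, c) = col s(c, d)) ∨
        (∃ v a b c : V,
          G.Adj v a ∧ G.Adj v b ∧ G.Adj v c ∧
          a ≠ b ∧ a ≠ c ∧ b ≠ c ∧
          col s(v, a) = col s(v, b) ∧ col s(v, b) = col s(v, c)) := by
  intro V _ G h6 col
  by_contra hc
  rw [not_or] at hc
  have h5 : G.Colorable 5 := by
    refine Pool.Agent.P.MP_e0c710_co.pure_graph V G col ?_ ?_
    · intro a b c d h1 h2 h3 e1 e2
      by_contra hn
      push Not at hn
      exact hc.1 ⟨a, b, c, d, h1, h2, h3, hn.1, hn.2.1, hn.2.2, e1, e2⟩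
    · intro v a b c h1 h2 h3 e1 e2
      by_contra hn
      push Not at hn
      exact hc.2 ⟨v, a, b, c, h1, h2, h3, hn.1, hn.2.1, hn.2.2, e1, e2⟩
  have := h6.trans h5.chromaticNumber_le
  exact absurd this (by decide)

end Pool.Agent.Results.MP_e0c710_co.PathOrClaw
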